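import Pool.Agent.Y402.CN.Final

/-!
# Mod 2 connectivity and coindex: finite complexes and infinite complexes

For every finite simplicial complex `X` with a simplicial involution (free or not)
`conn_{Z_2}(susp X) + 1 ≤ coind(susp X)`, and for every finite graph
`conn_{Z_2}(B_0(G)) + 1 ≤ coind(B_0(G))`. Both inequalities fail for infinite complexes: there is a
countable graph `G` such that the mod 2 homology of `B_0(G)` and of `susp B(G)` vanishes in all
dimensions `≤ 2`, but there is no equivariant map of the three-dimensional sphere to either of them.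
-/

set_option autoImplicit false

namespace Pool.Agent.Results.MP_653b6e_gt.FiniteVersusInfinite

open Pool.Agent.Y402.CN

theorem result :
    -- all finite complexes with a simplicial involution: the suspension
    (∀ (W : Type) [Finite W] (S : Finset W → Prop) (σ : W → W), IsComplex S → IsInvolution S σ →
      (∀ n, (∀ m, m ≤ n → HomVan (Susp S) m) → HasMap (Susp S) (suspInv σ) n) ∧
      connZ2 (Susp S) + 1 ≤ coind (Susp S) (suspInv σ)) ∧
    -- all finite graphs
    (∀ (V : Type) [Finite V] (G : SimpleGraph V),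
      (∀ n, (∀ m, m ≤ n → HomVan (Box G) m) → HasMap (Box G) flip n) ∧
      connZ2 (Box G) + 1 ≤ coind (Box G) flip) ∧
    -- a countable graph
    (∃ G : SimpleGraph ℕ,
      ((∀ m, m ≤ 3 → HomVan (Box G) m) ∧ ¬ HasMap (Box G) flip 3 ∧
        coind (Box G) flip < connZ2 (Box G) + 1) ∧
      (IsComplex (BoxB G) ∧ IsInvolution (BoxB G) flip ∧ IsFree (BoxB G) flip ∧
        (∀ m, m ≤ 3 → HomVan (Susp (BoxB G)) m) ∧ ¬ HasMap (Susp (BoxB G)) (suspInv flip) 3 ∧
        coind (Susp (BoxB G)) (suspInv flip) < connZ2 (Susp (BoxB G)) + 1)) := by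
  refine ⟨fun W _ S σ hS hσ => finite_susp_conn W S σ hS hσ, fun V _ G => finite_box_conn V G, ?_⟩
  obtain ⟨G, ⟨h1, h2⟩, h3, h4⟩ := infinite_all
  exact ⟨G, ⟨h1, h2, coind_lt _ _ h1 h2⟩, isComplex_boxB G, isInvolution_boxB G, isFree_boxB G,
    h3, h4, coind_lt _ _ h3 h4⟩

end Pool.Agent.Results.MP_653b6e_gt.FiniteVersusInfinite
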